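import Pool.Agent.P.MP_a1177c_nt.HL.Final

open Polynomial

open Pool.Agent.P.MP_a1177c_nt.HL in
/-- Hardy-Littlewood asymptotic, with a power saving, for the irreducible values of
`a A ^ 2 + c` in `K[X]`, where `K` is any finite field of characteristic two. -/
theorem Pool.Agent.Results.MP_a1177c_nt.CharTwoPrimes.result
    (K : Type*) [Field K] [Fintype K] [CharP K 2] (a c : K[X]) (ha : a ≠ 0)
    (hac : IsCoprime a c) (hsq : ¬ IsSquare (a * c)) :
    ∃ δ C : ℝ, 0 < δ ∧ ∀ m : ℕ,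
      |((a.natDegree + 2 * m : ℕ) : ℝ) *
          (Nat.card {A : K[X] // A.Monic ∧ A.natDegree = m ∧ Irreducible (a * A ^ 2 + c)} : ℝ) -
        (∏ᶠ (P : K[X]) (_ : P.Monic ∧ Irreducible P ∧ P ∣ a),
          (Fintype.card K : ℝ) ^ P.natDegree / ((Fintype.card K : ℝ) ^ P.natDegree - 1)) *
          (Fintype.card K : ℝ) ^ m| ≤
        C * (Fintype.card K : ℝ) ^ ((1 - δ) * m) := by
  classical
  have hl : a.leadingCoeff ≠ 0 := leadingCoeff_ne_zero.2 ha
  have hu : IsUnit (C a.leadingCoeff⁻¹ : K[X]) := isUnit_C.2 (inv_ne_zero hl).isUnit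
  set u : K[X] := C a.leadingCoeff⁻¹ with hu'
  have hm : (a * u).Monic := monic_mul_leadingCoeff_inv ha
  have hd : (a * u).natDegree = a.natDegree := natDegree_mul_leadingCoeff_inv a ha
  have hcop : IsCoprime (a * u) (c * u) :=
    (isCoprime_mul_unit_right_left hu _ _).2 ((isCoprime_mul_unit_right_right hu _ _).2 hac)
  have hns : ¬ IsSquare (a * u * (c * u)) := by
    rintro ⟨r, hr⟩
    obtain ⟨w, hw⟩ := hu.exists_right_inv
    exact hsq ⟨r * w, by linear_combination w ^ 2 * hr - a * c * (u * w + 1) * hw⟩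
  obtain ⟨δ, C', hδ, h⟩ := final_monic hm hcop hns
  refine ⟨δ, C', hδ, fun m => ?_⟩
  have h1 : Nat.card {A : K[X] // A.Monic ∧ A.natDegree = m ∧ Irreducible (a * A ^ 2 + c)} =
      ((Mn K m).filter fun A => Irreducible (a * u * A ^ 2 + c * u)).card := by
    refine Nat.subtype_card _ fun A => ?_
    rw [Finset.mem_filter, mem_Mn, and_assoc,
      show a * u * A ^ 2 + c * u = (a * A ^ 2 + c) * u by ring, irreducible_mul_isUnit hu]
  have h2 : (∏ᶠ (P : K[X]) (_ : P.Monic ∧ Irreducible P ∧ P ∣ a),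
      (Fintype.card K : ℝ) ^ P.natDegree / ((Fintype.card K : ℝ) ^ P.natDegree - 1)) =
      ∏ π ∈ pf (a * u), (Fintype.card K : ℝ) ^ π.natDegree /
        ((Fintype.card K : ℝ) ^ π.natDegree - 1) := by
    rw [← finprod_mem_finset_eq_prod]
    refine finprod_congr fun P => ?_
    rw [mem_pf hm.ne_zero, hu.dvd_mul_right]
  rw [h1, h2, ← hd]
  exact h m
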