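import Pool.Agent.P.MP_a1177c_nt.EK.Final

set_option autoImplicit false

namespace Pool.Agent.Results.MP_a1177c_nt.ExactOmega

/-- For every even `K ≥ 12` the number `n ^ 2 + 1` has exactly `K` prime factors, counted with
multiplicity, for at least `x / (log x) ^ C` integers `0 ≤ n ≤ x`, once `x` is large. -/
theorem result (K : ℕ) (hK : Even K) (h12 : 12 ≤ K) :
    ∃ C : ℕ, ∀ᶠ x : ℝ in Filter.atTop, x / Real.log x ^ C ≤
      (((Finset.range (⌊x⌋₊ + 1)).filter
        fun n => ArithmeticFunction.cardFactors (n ^ 2 + 1) = K).card : ℝ) := by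
  convert Pool.Agent.P.MP_a1177c_nt.EK.exact_omega K hK h12

end Pool.Agent.Results.MP_a1177c_nt.ExactOmega
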