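import Pool.Agent.P.MP_a1177c_nt.MR.Final

/-!
# Each parity of the number of prime factors of `n ^ 2 + 1` occurs more often than primes should
-/

namespace Pool.Agent.Results.MP_a1177c_nt.PolylogParity

theorem result (r : ℕ) (ε : ℝ) (hε : 0 < ε) :
    ∀ᶠ x : ℕ in Filter.atTop, (x : ℝ) / Real.log x ^ (Real.log 2 + ε) ≤
      (((Finset.Icc 1 x).filter fun n : ℕ =>
        ArithmeticFunction.cardFactors (n ^ 2 + 1) % 2 = r % 2).card : ℝ) :=
  Pool.Agent.P.MP_a1177c_nt.MR.polylog_parity r ε hε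

end Pool.Agent.Results.MP_a1177c_nt.PolylogParity
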