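import Pool.Agent.P.MP_a1177c_nt.LC.Fin

/-!
# The parity of the number of prime factors of `ν ^ 2 + 1` over the roots of `ν ^ 2 + 1 ≡ 0 mod d`
-/

namespace Pool.Agent.Results.MP_a1177c_nt.RootsChowla

open Classical in
theorem result (α β ε : ℝ) (hα : 0 ≤ α) (hαβ : α < β) (hε : 0 < ε) :
    Filter.Tendsto (fun X : ℕ => (∑ Y ∈ (Finset.Icc 1 X).filter (fun Y : ℕ =>
      ε * ∑ d ∈ Finset.Icc 1 Y,
          (((Finset.Ico ⌈α * d⌉₊ ⌈β * d⌉₊).filter fun ν => d ∣ ν ^ 2 + 1).card : ℝ) <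
        |∑ d ∈ Finset.Icc 1 Y,
          ∑ ν ∈ (Finset.Ico ⌈α * d⌉₊ ⌈β * d⌉₊).filter (fun ν => d ∣ ν ^ 2 + 1),
            (-1 : ℝ) ^ ArithmeticFunction.cardFactors (ν ^ 2 + 1)|), (1 : ℝ) / Y) / Real.log X)
      Filter.atTop (nhds 0) :=
  Pool.Agent.P.MP_a1177c_nt.LC.final hα hαβ hε

end Pool.Agent.Results.MP_a1177c_nt.RootsChowla
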